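import Pool.Agent.H80.AG.Targets9

/-!
A component on which the relation holds (board `gap_modules`, row `ER2`).
-/

set_option autoImplicit false

open MeasureTheory ProbabilityTheory Filter Topology Finset
open scoped Nat ENNReal

namespace Pool.Agent.H49.AG

open Pool.Agent.H24.MR (lam dens)
open Pool.Agent.H24.T2 (Pset rel)
open Pool.Agent.H67.AG Pool.Agent.H80.AG

theorem er2_freq {Ω : Type} (E : ℕ → Set Ω) :
    {ω | ∃ᶠ i in atTop, ω ∈ E i} = ⋂ n, ⋃ i, ⋃ (_ : n ≤ i), E i := by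
  ext ω
  simp only [Set.mem_setOf_eq, frequently_atTop, Set.mem_iInter, Set.mem_iUnion]
  exact forall_congr' fun n => exists_congr fun i => by simp

theorem er2_meas {Ω : Type} [MeasurableSpace Ω] (E : ℕ → Set Ω) (hE : ∀ i, MeasurableSet (E i)) :
    MeasurableSet {ω | ∃ᶠ i in atTop, ω ∈ E i} := by
  rw [er2_freq]
  exact MeasurableSet.iInter fun n => MeasurableSet.iUnion fun i => MeasurableSet.iUnion fun _ => hE i

theorem er2_lim {Ω : Type} [MeasurableSpace Ω] (P : Measure Ω) [IsProbabilityMeasure P]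
    (E : ℕ → Set Ω) (hE : ∀ i, MeasurableSet (E i)) (c : ℝ) (i₀ : ℕ)
    (h : ∀ i, i₀ ≤ i → c ≤ P.real (E i)) : c ≤ P.real {ω | ∃ᶠ i in atTop, ω ∈ E i} := by
  rw [er2_freq]
  have hm : ∀ n, MeasurableSet (⋃ i, ⋃ (_ : n ≤ i), E i) := fun n =>
    MeasurableSet.iUnion fun i => MeasurableSet.iUnion fun _ => hE i
  have hanti : Antitone fun n : ℕ => ⋃ i, ⋃ (_ : n ≤ i), E i := by
    intro a b hab x hx
    simp only [Set.mem_iUnion] at hx ⊢
    obtain ⟨i, hi, hx⟩ := hx
    exact ⟨i, hab.trans hi, hx⟩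
  have ht := tendsto_measure_iInter_atTop (μ := P) (fun n => (hm n).nullMeasurableSet) hanti
    ⟨0, measure_ne_top _ _⟩
  have ht' : Tendsto (fun n => P.real (⋃ i, ⋃ (_ : n ≤ i), E i)) atTop
      (𝓝 (P.real (⋂ n, ⋃ i, ⋃ (_ : n ≤ i), E i))) :=
    (ENNReal.tendsto_toReal (measure_ne_top _ _)).comp ht
  refine ge_of_tendsto ht' (Filter.Eventually.of_forall fun n => ?_)
  refine (h (max n i₀) (le_max_right _ _)).trans (measureReal_mono ?_ (measure_ne_top _ _))
  intro x hx
  simp only [Set.mem_iUnion]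
  exact ⟨max n i₀, le_max_left _ _, hx⟩

section

variable {Q : ℕ} [NeZero Q]

omit [NeZero Q] in
theorem er2_lbm (a : ℕ × ℕ) : Measurable fun x : Om Q => x.2.2 a :=
  (measurable_pi_apply a).comp (measurable_snd.comp measurable_snd)

theorem er2_sgm : Measurable (sg) := measurable_from_top

theorem er2_rbm {n : ℕ} (β : Fin n → ℕ) (p : ℕ) :
    Measurable fun x : Om Q => ∏ j, DD Q ((sh Q)^[p * β j] x) := by
  refine Finset.measurable_prod _ fun j _ => ?_
  have h1 : Measurable (DD Q) :=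
    er2_sgm.comp ((measurable_pi_apply (0 : ℤ)).comp measurable_fst)
  have h2 : Measurable ((sh Q)^[p * β j]) := ((sh Q).continuous.iterate _).measurable
  exact h1.comp h2

/-- the bad set of the prime `p` -/
def er2Bad (Q : ℕ) {n : ℕ} (β : Fin n → ℕ) (a : ℕ × ℕ) (p : ℕ) : Set (Om Q) :=
  {ω | (ω.2.2 a).1 = true ∧ ω.2.1 = (ω.2.2 a).2.1 ∧ ω ∈ RB Q β p (ω.2.2 a).2.2}

theorem er2_badm {n : ℕ} (β : Fin n → ℕ) (a : ℕ × ℕ) (p : ℕ) :
    MeasurableSet (er2Bad Q β a p) := by
  have h0 := er2_lbm (Q := Q) a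
  have h1 : MeasurableSet {x : Om Q | (x.2.2 a).1 = true} :=
    measurableSet_eq_fun (measurable_fst.comp h0) measurable_const
  have h2 : MeasurableSet {x : Om Q | x.2.1 = (x.2.2 a).2.1} :=
    measurableSet_eq_fun (measurable_fst.comp measurable_snd)
      (measurable_fst.comp (measurable_snd.comp h0))
  have h3 : MeasurableSet {x : Om Q | x ∈ RB Q β p (x.2.2 a).2.2} := by
    have : MeasurableSet {x : Om Q | ∏ j, DD Q ((sh Q)^[p * β j] x) = sg (x.2.2 a).2.2} :=
      measurableSet_eq_fun (er2_rbm β p)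
        (er2_sgm.comp (measurable_snd.comp (measurable_snd.comp h0)))
    exact this.compl
  exact h1.inter (h2.inter h3)

theorem er2_one (P : Measure (Om Q)) [IsProbabilityMeasure P] {n : ℕ} (β : Fin n → ℕ) (η : ℝ)
    (a : ℕ × ℕ) (s : Finset ℕ) (hη : 0 < η) (κ : Kernel (Om Q) (Om Q)) [IsMarkovKernel κ]
    (hκ : ∀ B, MeasurableSet B → P B = ∫⁻ ω, κ ω B ∂P)
    (herg : ∀ᵐ ω ∂P, Ergodic (shM Q) (κ ω))
    (hs : ∑ p ∈ s, P.real (er2Bad Q β a p) ≤
      11 * η / Q * s.card * P.real {ω | (ω.2.2 a).1 = true}) :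
    P.real {ω | (ω.2.2 a).1 = true} / 2 ≤
      P.real {ω | κ ω {x | (x.2.2 a).1 = true} = 1 ∧
        ∑ p ∈ s, (κ ω).real (er2Bad Q β a p) ≤ 22 * η / Q * s.card} := by
  have h0 := er2_lbm (Q := Q) a
  have hgm : MeasurableSet {x : Om Q | (x.2.2 a).1 = true} :=
    measurableSet_eq_fun (measurable_fst.comp h0) measurable_const
  set g : Set (Om Q) := {x : Om Q | (x.2.2 a).1 = true} with hg
  have hQ : (0 : ℝ) < Q := by exact_mod_cast Nat.pos_of_ne_zero (NeZero.ne Q)
  set f : Om Q → ℝ := fun ω => ∑ p ∈ s, (κ ω).real (er2Bad Q β a p) with hf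
  have hfm : Measurable f := Finset.measurable_sum _ fun p _ =>
    (κ.measurable_coe (er2_badm β a p)).ennreal_toReal
  have hf0 : ∀ ω, 0 ≤ f ω := fun ω => Finset.sum_nonneg fun p _ => measureReal_nonneg
  -- the integral of `f`
  have hreal : ∀ B, MeasurableSet B → ∫ ω, (κ ω).real B ∂P = P.real B := by
    intro B hB
    have h1 : ∫ ω, (κ ω).real B ∂P = (∫⁻ ω, κ ω B ∂P).toReal := by
      refine integral_toReal (κ.measurable_coe hB).aemeasurable ?_
      exact Filter.Eventually.of_forall fun ω => measure_lt_top _ _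
    rw [h1, ← hκ B hB]
    rfl
  have hint : ∀ B, MeasurableSet B → Integrable (fun ω => (κ ω).real B) P := by
    intro B hB
    refine Integrable.of_bound (κ.measurable_coe hB).ennreal_toReal.aestronglyMeasurable 1 ?_
    refine Filter.Eventually.of_forall fun ω => ?_
    rw [Real.norm_eq_abs, abs_of_nonneg measureReal_nonneg]
    exact measureReal_le_one
  have hfint : ∫ ω, f ω ∂P = ∑ p ∈ s, P.real (er2Bad Q β a p) := by
    rw [hf, integral_finset_sum _ fun p _ => hint _ (er2_badm β a p)]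
    exact Finset.sum_congr rfl fun p _ => hreal _ (er2_badm β a p)
  have hfi : Integrable f P := integrable_finset_sum _ fun p _ => hint _ (er2_badm β a p)
  -- Markov
  have hmk : P.real {ω | 22 * η / Q * s.card < f ω} ≤ P.real g / 2 := by
    rcases Finset.eq_empty_or_nonempty s with rfl | hne
    · have : {ω | 22 * η / Q * (∅ : Finset ℕ).card < f ω} = ∅ := by
        ext ω
        simp [hf]
      rw [this]
      simp only [measureReal_empty]
      positivity
    · have hc : (0 : ℝ) < s.card := by exact_mod_cast hne.card_pos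
      set A : ℝ := 11 * η / Q * s.card with hA
      have hA0 : 0 < A := by positivity
      have h1 := mul_meas_ge_le_integral_of_nonneg
        (Filter.Eventually.of_forall hf0) hfi (2 * A)
      have h2 : P.real {ω | 22 * η / Q * s.card < f ω} ≤ P.real {ω | 2 * A ≤ f ω} := by
        refine measureReal_mono (fun ω hω => ?_) (measure_ne_top _ _)
        have hω' : 22 * η / Q * s.card < f ω := hω
        have : 22 * η / Q * s.card = 2 * A := by
          rw [hA]
          ring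
        rw [this] at hω'
        exact hω'.le
      have h3 : 2 * A * P.real {ω | 2 * A ≤ f ω} ≤ A * P.real g := by
        refine h1.trans ?_
        rw [hfint]
        exact hs
      have h4 : P.real {ω | 2 * A ≤ f ω} ≤ P.real g / 2 := by
        rw [le_div_iff₀ two_pos]
        have h5 : A * (P.real {ω | 2 * A ≤ f ω} * 2) ≤ A * P.real g := by
          linarith
        exact le_of_mul_le_mul_left h5 hA0
      exact h2.trans h4
  -- the set where `κ ω g = 1`
  have hinv : shM Q ⁻¹' g = g := rfl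
  have h01 : ∀ᵐ ω ∂P, (κ ω).real g = (Set.indicator {ω | κ ω g = 1} (fun _ => (1 : ℝ))) ω := by
    filter_upwards [herg] with ω hω
    rcases hω.toPreErgodic.prob_eq_zero_or_one hgm hinv with h1 | h1
    · rw [Set.indicator_of_notMem]
      · simp [Measure.real, h1]
      · simp [h1]
    · rw [Set.indicator_of_mem]
      · simp [Measure.real, h1]
      · exact h1
  have hEm : MeasurableSet {ω | κ ω g = 1} := (κ.measurable_coe hgm) (measurableSet_singleton 1)
  have hPg : P.real {ω | κ ω g = 1} = P.real g := by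
    rw [← hreal g hgm, integral_congr_ae h01, integral_indicator_const _ hEm]
    simp
  have hcup : {ω | κ ω g = 1} ⊆ {ω | κ ω g = 1 ∧ f ω ≤ 22 * η / Q * s.card} ∪
      {ω | 22 * η / Q * s.card < f ω} := by
    intro ω hω
    by_cases hle : f ω ≤ 22 * η / Q * s.card
    · exact Or.inl ⟨hω, hle⟩
    · exact Or.inr (not_le.1 hle)
  have hfin := (measureReal_mono hcup (measure_ne_top P _)).trans (measureReal_union_le _ _)
  rw [hPg] at hfin
  linarith

theorem pf_ER2 : T_ER2 := by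
  intro Q n _ β ρ η m P hρ hη hP κ hκM hκ herg S hS
  have hprob := hP.prob
  have hQ : (0 : ℝ) < Q := by exact_mod_cast Nat.pos_of_ne_zero (NeZero.ne Q)
  set E : ℕ → ℕ → Set (Om Q) := fun w i =>
    {ω | κ ω {x | (x.2.2 (w, i)).1 = true} = 1 ∧
      ∑ p ∈ Pset (Q * w !) (m w i), (κ ω).real (er2Bad Q β (w, i) p) ≤
        22 * η / Q * (Pset (Q * w !) (m w i)).card} with hE
  have hEm : ∀ w i, MeasurableSet (E w i) := by
    intro w i
    have hgm : MeasurableSet {x : Om Q | (x.2.2 (w, i)).1 = true} :=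
      measurableSet_eq_fun (measurable_fst.comp (er2_lbm (w, i))) measurable_const
    refine MeasurableSet.inter ((κ.measurable_coe hgm) (measurableSet_singleton 1)) ?_
    have hm1 : Measurable fun ω : Om Q =>
        ∑ p ∈ Pset (Q * w !) (m w i), (κ ω).real (er2Bad Q β (w, i) p) :=
      Finset.measurable_sum _ fun p _ =>
        (κ.measurable_coe (er2_badm β (w, i) p)).ennreal_toReal
    exact measurableSet_le hm1 measurable_const
  obtain ⟨i₀, hi₀⟩ : ∃ i₀ : ℕ, ∀ i, i₀ ≤ i → 2 / ((i : ℝ) + 1) ≤ η := by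
    obtain ⟨i₀, hi₀⟩ := exists_nat_gt (2 / η)
    refine ⟨i₀, fun i hi => ?_⟩
    have h1 : (i₀ : ℝ) ≤ i := by exact_mod_cast hi
    rw [div_le_iff₀ (by positivity)]
    rw [div_lt_iff₀ hη] at hi₀
    nlinarith
  have hEP : ∀ w i, i₀ ≤ i → ρ / 4 ≤ P.real (E w i) := by
    intro w i hi
    have h1 := er2_one P β η (w, i) (Pset (Q * w !) (m w i)) hη κ hκ herg (by
      refine (hP.relation w i).trans ?_
      refine mul_le_mul_of_nonneg_right ?_ measureReal_nonneg
      refine mul_le_mul_of_nonneg_right ?_ (Nat.cast_nonneg _)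
      refine div_le_div_of_nonneg_right ?_ hQ.le
      linarith [hi₀ i hi])
    have h2 := hP.lab w i
    exact le_trans (by linarith) h1
  have hF : ∀ w, ρ / 4 ≤ P.real {ω | ∃ᶠ i in atTop, ω ∈ E w i} := fun w =>
    er2_lim P (E w) (hEm w) (ρ / 4) i₀ (hEP w)
  have hFF : ρ / 4 ≤ P.real {ω | ∃ᶠ w in atTop, ω ∈ {ω | ∃ᶠ i in atTop, ω ∈ E w i}} :=
    er2_lim P (fun w => {ω | ∃ᶠ i in atTop, ω ∈ E w i}) (fun w => er2_meas _ (hEm w)) (ρ / 4) 0
      fun w _ => hF w
  have hpos : P {ω | ∃ᶠ w in atTop, ω ∈ {ω | ∃ᶠ i in atTop, ω ∈ E w i}} ≠ 0 := by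
    intro h0
    have h1 : P.real {ω | ∃ᶠ w in atTop, ω ∈ {ω | ∃ᶠ i in atTop, ω ∈ E w i}} = 0 := by
      rw [measureReal_def, h0, ENNReal.toReal_zero]
    rw [h1] at hFF
    linarith
  have hfr : ∃ᶠ ω in ae P, ω ∈ {ω | ∃ᶠ w in atTop, ω ∈ {ω | ∃ᶠ i in atTop, ω ∈ E w i}} :=
    frequently_ae_iff.2 hpos
  obtain ⟨ω, hω, hωS, hωe⟩ := (hfr.and_eventually (hS.and herg)).exists
  refine ⟨ω, hωS, ?_⟩
  refine Filter.Frequently.mono hω fun w hw => ?_
  refine Filter.Frequently.mono hw fun i hi => ?_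
  obtain ⟨hg1, hsum⟩ := hi
  -- the label is constant
  have hlm : ∀ l : Lb Q, MeasurableSet {x : Om Q | x.2.2 (w, i) = l} := fun l =>
    (er2_lbm (w, i)) (measurableSet_singleton l)
  have hex : ∃ l : Lb Q, κ ω {x : Om Q | x.2.2 (w, i) = l} = 1 := by
    by_contra hno
    push Not at hno
    have h0 : ∀ l : Lb Q, κ ω {x : Om Q | x.2.2 (w, i) = l} = 0 := fun l => by
      rcases hωe.toPreErgodic.prob_eq_zero_or_one (hlm l) rfl with h1 | h1
      · exact h1
      · exact absurd h1 (hno l)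
    have h1 : κ ω (⋃ l : Lb Q, {x : Om Q | x.2.2 (w, i) = l}) = 0 := by
      rw [measure_iUnion_null_iff]
      exact h0
    have h2 : (⋃ l : Lb Q, {x : Om Q | x.2.2 (w, i) = l}) = Set.univ := by
      ext x
      simp
    rw [h2, measure_univ] at h1
    exact one_ne_zero h1
  obtain ⟨l, hl⟩ := hex
  have hae : ∀ᵐ x ∂(κ ω), x.2.2 (w, i) = l := by
    rw [ae_iff]
    have := prob_compl_eq_zero_iff (μ := κ ω) (hlm l)
    exact this.2 hl
  have hae2 : ∀ᵐ x ∂(κ ω), (x.2.2 (w, i)).1 = true := by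
    rw [ae_iff]
    have hgm : MeasurableSet {x : Om Q | (x.2.2 (w, i)).1 = true} :=
      measurableSet_eq_fun (measurable_fst.comp (er2_lbm (w, i))) measurable_const
    have := prob_compl_eq_zero_iff (μ := κ ω) hgm
    exact this.2 hg1
  have hl1 : l.1 = true := by
    obtain ⟨x, hx1, hx2⟩ := (hae.and hae2).exists
    rw [← hx1]
    exact hx2
  refine ⟨l.2.1, l.2.2, le_trans (Finset.sum_le_sum fun p _ => ?_) hsum⟩
  have hmono : {x : Om Q | x.2.1 = l.2.1 ∧ x ∈ RB Q β p l.2.2} ≤ᵐ[κ ω] er2Bad Q β (w, i) p := by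
    filter_upwards [hae] with x hx hx2
    have hx3 : x.2.1 = l.2.1 ∧ x ∈ RB Q β p l.2.2 := hx2
    change (x.2.2 (w, i)).1 = true ∧ x.2.1 = (x.2.2 (w, i)).2.1 ∧
      x ∈ RB Q β p (x.2.2 (w, i)).2.2
    rw [hx]
    exact ⟨hl1, hx3⟩
  exact ENNReal.toReal_mono (measure_ne_top _ _) (measure_mono_ae hmono)

end

end Pool.Agent.H49.AG
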