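import Pool.Agent.H67.AG.T1

/-!
Naturality of the invariant conditional expectation under factor maps (board `gap_modules`,
row `NA`).
-/

set_option autoImplicit false

open MeasureTheory ProbabilityTheory Filter Topology Finset
open scoped Nat ENNReal

namespace Pool.Agent.H49.AG

open Pool.Agent.H67.AG

theorem na_bd {Ω : Type} [MeasurableSpace Ω] (P : Measure Ω) [IsProbabilityMeasure P]
    (m : MeasurableSpace Ω) (f : Ω → ℝ) (hb : ∀ ω, |f ω| ≤ 1) :
    ∀ᵐ ω ∂P, |(P[f | m]) ω| ≤ 1 := by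
  exact ae_bdd_abs_condExp_of_ae_bdd_abs (Filter.Eventually.of_forall hb)

theorem na_int {Ω : Type} [MeasurableSpace Ω] (P : Measure Ω) [IsProbabilityMeasure P]
    (u v : Ω → ℝ) (hu : AEStronglyMeasurable u P) (hv : AEStronglyMeasurable v P)
    (hub : ∀ᵐ ω ∂P, |u ω| ≤ 1) (hvb : ∀ᵐ ω ∂P, |v ω| ≤ 1) :
    Integrable (fun ω => (u ω - v ω) ^ 2) P := by
  refine Integrable.of_bound ((hu.sub hv).pow 2) 4 ?_
  filter_upwards [hub, hvb] with ω h1 h2
  have h3 := abs_le.1 h1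
  have h4 := abs_le.1 h2
  rw [Real.norm_eq_abs]
  rw [abs_of_nonneg (sq_nonneg _)]
  nlinarith [h3.1, h3.2, h4.1, h4.2]

theorem na_av {Ω : Type} [MeasurableSpace Ω] (T : Ω ≃ᵐ Ω) (W n : ℕ) (f : Ω → ℝ)
    (hb : ∀ ω, |f ω| ≤ 1) (ω : Ω) : |Av T W n f ω| ≤ 1 := by
  unfold Av
  rcases Nat.eq_zero_or_pos n with rfl | hn
  · simp
  · have hn' : (0 : ℝ) < n := by exact_mod_cast hn
    rw [abs_div, abs_of_pos hn', div_le_one hn']
    refine (Finset.abs_sum_le_sum_abs _ _).trans ?_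
    calc ∑ i ∈ range n, |f (T^[W * i] ω)| ≤ ∑ _i ∈ range n, (1 : ℝ) :=
          Finset.sum_le_sum fun i _ => hb _
      _ = n := by simp

theorem na_avm {Ω : Type} [MeasurableSpace Ω] (T : Ω ≃ᵐ Ω) (W n : ℕ) (f : Ω → ℝ)
    (hf : Measurable f) : Measurable (Av T W n f) := by
  unfold Av
  exact (Finset.measurable_sum _ fun i _ =>
    hf.comp (T.measurable.iterate _)).div_const _

theorem na_one (h : T_ME) {Ω Ω' : Type} [MeasurableSpace Ω] [MeasurableSpace Ω'] (P : Measure Ω)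
    [IsProbabilityMeasure P] (P' : Measure Ω') [IsProbabilityMeasure P'] (T : Ω ≃ᵐ Ω)
    (T' : Ω' ≃ᵐ Ω') (g : Ω → Ω') (W : ℕ) (f : Ω' → ℝ) (hT : MeasurePreserving T P P)
    (hT' : MeasurePreserving T' P' P') (hg : Fac P T P' T' g) (hf : Measurable f)
    (hb : ∀ ω, |f ω| ≤ 1) :
    P[fun ω => f (g ω) | Inv T W] =ᵐ[P] fun ω => (P'[f | Inv T' W]) (g ω) := by
  obtain ⟨hgm, hgc⟩ := hg
  have hit : ∀ (j : ℕ) (ω : Ω), g (T^[j] ω) = T'^[j] (g ω) := by
    have hs : Function.Semiconj g T T' := hgc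
    intro j ω
    exact hs.iterate_right j ω
  have hAv : ∀ n ω, Av T W n (fun ω => f (g ω)) ω = Av T' W n f (g ω) := by
    intro n ω
    unfold Av
    congr 1
    refine Finset.sum_congr rfl fun l _ => ?_
    change f (g (T^[W * l] ω)) = f (T'^[W * l] (g ω))
    rw [hit]
  set E1 : Ω → ℝ := P[fun ω => f (g ω) | Inv T W] with hE1
  set E2 : Ω' → ℝ := P'[f | Inv T' W] with hE2
  have hE1m : AEStronglyMeasurable E1 P := integrable_condExp.aestronglyMeasurable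
  have hE2m : AEStronglyMeasurable E2 P' := integrable_condExp.aestronglyMeasurable
  have hE2g : AEStronglyMeasurable (fun ω => E2 (g ω)) P :=
    hE2m.comp_quasiMeasurePreserving hgm.quasiMeasurePreserving
  have hE1b : ∀ᵐ ω ∂P, |E1 ω| ≤ 1 := na_bd P _ _ fun ω => hb (g ω)
  have hE2b' : ∀ᵐ ω ∂P', |E2 ω| ≤ 1 := na_bd P' _ _ hb
  have hE2b : ∀ᵐ ω ∂P, |E2 (g ω)| ≤ 1 := hgm.quasiMeasurePreserving.ae hE2b'
  have hfg : Measurable (fun ω => f (g ω)) := hf.comp hgm.measurable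
  have t1 := h Ω P T W (fun ω => f (g ω)) hT hfg fun ω => hb (g ω)
  have t2 := h Ω' P' T' W f hT' hf hb
  have e2 : ∀ n, ∫ ω, (Av T' W n f ω - E2 ω) ^ 2 ∂P'
      = ∫ ω, (Av T W n (fun ω => f (g ω)) ω - E2 (g ω)) ^ 2 ∂P := by
    intro n
    have hmm : AEStronglyMeasurable (fun ω => (Av T' W n f ω - E2 ω) ^ 2) P' :=
      (((na_avm T' W n f hf).aestronglyMeasurable).sub hE2m).pow 2
    have hmm' : AEStronglyMeasurable (fun ω => (Av T' W n f ω - E2 ω) ^ 2) (P.map g) := by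
      rw [hgm.map_eq]
      exact hmm
    rw [← hgm.map_eq, integral_map hgm.measurable.aemeasurable hmm']
    refine integral_congr_ae (Filter.Eventually.of_forall fun ω => ?_)
    simp only [hAv]
  have key : ∀ n, ∫ ω, (E1 ω - E2 (g ω)) ^ 2 ∂P
      ≤ 2 * (∫ ω, (Av T W n (fun ω => f (g ω)) ω - E1 ω) ^ 2 ∂P)
        + 2 * ∫ ω, (Av T' W n f ω - E2 ω) ^ 2 ∂P' := by
    intro n
    have i1 : Integrable (fun ω => (Av T W n (fun ω => f (g ω)) ω - E1 ω) ^ 2) P :=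
      na_int P _ _ (na_avm T W n _ hfg).aestronglyMeasurable hE1m
        (Filter.Eventually.of_forall fun ω => na_av T W n _ (fun ω => hb (g ω)) ω) hE1b
    have i2 : Integrable (fun ω => (Av T W n (fun ω => f (g ω)) ω - E2 (g ω)) ^ 2) P :=
      na_int P _ _ (na_avm T W n _ hfg).aestronglyMeasurable hE2g
        (Filter.Eventually.of_forall fun ω => na_av T W n _ (fun ω => hb (g ω)) ω) hE2b
    have i0 : Integrable (fun ω => (E1 ω - E2 (g ω)) ^ 2) P :=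
      na_int P _ _ hE1m hE2g hE1b hE2b
    rw [e2 n, ← integral_const_mul, ← integral_const_mul,
      ← integral_add (i1.const_mul 2) (i2.const_mul 2)]
    refine integral_mono i0 ((i1.const_mul 2).add (i2.const_mul 2)) fun ω => ?_
    nlinarith [sq_nonneg ((Av T W n (fun ω => f (g ω)) ω - E1 ω)
      + (Av T W n (fun ω => f (g ω)) ω - E2 (g ω)))]
  have lim : Tendsto (fun n => 2 * (∫ ω, (Av T W n (fun ω => f (g ω)) ω - E1 ω) ^ 2 ∂P)
        + 2 * ∫ ω, (Av T' W n f ω - E2 ω) ^ 2 ∂P') atTop (𝓝 (2 * 0 + 2 * 0)) :=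
    (t1.const_mul 2).add (t2.const_mul 2)
  have hle : ∫ ω, (E1 ω - E2 (g ω)) ^ 2 ∂P ≤ 2 * 0 + 2 * 0 :=
    ge_of_tendsto lim (Filter.Eventually.of_forall key)
  have h0 : ∫ ω, (E1 ω - E2 (g ω)) ^ 2 ∂P = 0 :=
    le_antisymm (by simpa using hle) (integral_nonneg fun ω => sq_nonneg _)
  have i0 : Integrable (fun ω => (E1 ω - E2 (g ω)) ^ 2) P :=
    na_int P _ _ hE1m hE2g hE1b hE2b
  have h1 := (integral_eq_zero_iff_of_nonneg (fun ω => sq_nonneg _) i0).1 h0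
  filter_upwards [h1] with ω hω
  have : (E1 ω - E2 (g ω)) ^ 2 = 0 := hω
  have h2 := pow_eq_zero_iff (two_ne_zero) |>.1 this
  linarith

theorem pf_NA (h : T_ME) : T_NA := by
  intro Ω Ω' _ _ P _ P' _ T T' g W f hT hT' hg hf hC
  obtain ⟨C, hC⟩ := hC
  set c : ℝ := max C 1 with hc
  have hc0 : 0 < c := lt_of_lt_of_le one_pos (le_max_right _ _)
  have hb : ∀ ω, |c⁻¹ * f ω| ≤ 1 := by
    intro ω
    rw [abs_mul, abs_of_pos (inv_pos.2 hc0), inv_mul_le_iff₀ hc0, mul_one]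
    exact (hC ω).trans (le_max_left _ _)
  have h1 := na_one h P P' T T' g W (fun ω => c⁻¹ * f ω) hT hT' hg (hf.const_mul _) hb
  have hgm := hg.1
  have e1 : (fun ω => f (g ω)) = c • fun ω => c⁻¹ * f (g ω) := by
    funext ω
    simp only [Pi.smul_apply, smul_eq_mul]
    rw [mul_inv_cancel_left₀ hc0.ne']
  have e2 : f = c • fun ω => c⁻¹ * f ω := by
    funext ω
    simp only [Pi.smul_apply, smul_eq_mul]
    rw [mul_inv_cancel_left₀ hc0.ne']
  have h2 : P[fun ω => f (g ω) | Inv T W] =ᵐ[P]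
      c • P[fun ω => c⁻¹ * f (g ω) | Inv T W] := by
    conv_lhs => rw [e1]
    exact condExp_smul c _ _
  have h3 : P'[f | Inv T' W] =ᵐ[P'] c • P'[fun ω => c⁻¹ * f ω | Inv T' W] := by
    conv_lhs => rw [e2]
    exact condExp_smul c _ _
  have h4 := hgm.quasiMeasurePreserving.ae h3
  filter_upwards [h1, h2, h4] with ω a1 a2 a4
  rw [a2, a4]
  simp only [Pi.smul_apply]
  rw [a1]

end Pool.Agent.H49.AG
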