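import Pool.Agent.H38.AG.Targets
import Pool.Agent.H33.AF.HG

/-!
# HGW: Hölder's inequality with a weight
-/

set_option autoImplicit false

namespace Pool.Agent.H49.AG

open Pool.Agent.H38.RB Pool.Agent.H38.PS Pool.Agent.H82.RD Pool.Agent.H38.AB Pool.Agent.H38.AG
open Pool.Agent.H33.AF Finset

/-- the character sum of a set of group elements -/
noncomputable def Hs {G : Type} [CommGroup G] (H : Finset G) (ψ : AddChar (Additive G) ℂ) : ℂ :=
  ∑ h ∈ H, ψ (Additive.ofMul h)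

theorem sum_wprod {G : Type} [CommGroup G] [Fintype G] [DecidableEq G] {k : ℕ}
    (B : Fin k → Finset ℕ) (f : Fin k → ℕ → G) (H : Finset G) :
    ∑ ψ : AddChar (Additive G) ℂ, ‖Hs H ψ‖ ^ 2 * ∏ j, ‖Sj (B j) (f j) ψ‖ ^ 2 =
      (Fintype.card G : ℝ) * EW B f H := by
  have h := orth ((Fintype.piFinset B) ×ˢ H) (fun s : (Fin k → ℕ) × G => (∏ j, f j (s.1 j)) * s.2)
  have hc : ((((Fintype.piFinset B) ×ˢ H) ×ˢ ((Fintype.piFinset B) ×ˢ H)).filter
      (fun t : ((Fin k → ℕ) × G) × ((Fin k → ℕ) × G) =>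
        (∏ j, f j (t.1.1 j)) * t.1.2 = (∏ j, f j (t.2.1 j)) * t.2.2)).card =
      ((((Fintype.piFinset B) ×ˢ (Fintype.piFinset B)) ×ˢ (H ×ˢ H)).filter
        (fun t : ((Fin k → ℕ) × (Fin k → ℕ)) × (G × G) =>
          (∏ j, f j (t.1.1 j)) * t.2.1 = (∏ j, f j (t.1.2 j)) * t.2.2)).card := by
    refine Finset.card_bij' (fun t _ => ((t.1.1, t.2.1), (t.1.2, t.2.2)))
      (fun t _ => ((t.1.1, t.2.1), (t.1.2, t.2.2))) ?_ ?_ ?_ ?_
    · intro t ht
      simp only [Finset.mem_filter, Finset.mem_product] at ht ⊢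
      exact ⟨⟨⟨ht.1.1.1, ht.1.2.1⟩, ht.1.1.2, ht.1.2.2⟩, ht.2⟩
    · intro t ht
      simp only [Finset.mem_filter, Finset.mem_product] at ht ⊢
      exact ⟨⟨⟨ht.1.1.1, ht.1.2.1⟩, ht.1.1.2, ht.1.2.2⟩, ht.2⟩
    · intro t _
      rfl
    · intro t _
      rfl
  unfold EW
  rw [← hc, ← h]
  refine Finset.sum_congr rfl fun ψ _ => ?_
  have e : ∑ s ∈ (Fintype.piFinset B) ×ˢ H, ψ (Additive.ofMul ((∏ j, f j (s.1 j)) * s.2)) =
      (∏ j, Sj (B j) (f j) ψ) * Hs H ψ := by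
    rw [← prod_Sj, Hs, Finset.sum_mul_sum, ← Finset.sum_product']
    refine Finset.sum_congr rfl fun s _ => ?_
    rw [ofMul_mul, AddChar.map_add_eq_mul]
  rw [e, norm_mul, mul_pow, norm_prod, Finset.prod_pow, mul_comm]

theorem sum_wpow {G : Type} [CommGroup G] [Fintype G] [DecidableEq G]
    (B : Finset ℕ) (f : ℕ → G) (n : ℕ) (H : Finset G) :
    ∑ ψ : AddChar (Additive G) ℂ, ‖Hs H ψ‖ ^ 2 * (‖Sj B f ψ‖ ^ 2) ^ n =
      (Fintype.card G : ℝ) * EW (fun _ : Fin n => B) (fun _ => f) H := by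
  rw [← sum_wprod]
  refine Finset.sum_congr rfl fun ψ _ => ?_
  rw [Finset.prod_const, Finset.card_univ, Fintype.card_fin]

theorem sum_w {G : Type} [CommGroup G] [Fintype G] [DecidableEq G] (H : Finset G) :
    ∑ ψ : AddChar (Additive G) ℂ, ‖Hs H ψ‖ ^ 2 = (Fintype.card G : ℝ) * H.card := by
  have h := orth H (fun s : G => s)
  unfold Hs
  rw [h]
  congr 2
  refine Finset.card_bij' (fun t _ => t.1) (fun t _ => (t, t)) ?_ ?_ ?_ ?_
  · intro t ht
    simp only [Finset.mem_filter, Finset.mem_product] at ht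
    exact ht.1.1
  · intro t ht
    exact Finset.mem_filter.2 ⟨Finset.mem_product.2 ⟨ht, ht⟩, rfl⟩
  · intro t ht
    simp only [Finset.mem_filter, Finset.mem_product] at ht
    exact Prod.ext rfl ht.2
  · intro t _
    rfl

theorem EW_pos {G : Type} [CommGroup G] [DecidableEq G] {k : ℕ} (B : Fin k → Finset ℕ)
    (hB : ∀ j, (B j).Nonempty) (f : Fin k → ℕ → G) (H : Finset G) (hH : H.Nonempty) :
    0 < EW B f H := by
  choose b hb using hB
  obtain ⟨h, hh⟩ := hH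
  unfold EW
  rw [Nat.cast_pos, Finset.card_pos]
  refine ⟨((b, b), (h, h)), ?_⟩
  exact Finset.mem_filter.2 ⟨Finset.mem_product.2 ⟨Finset.mem_product.2
    ⟨Fintype.mem_piFinset.2 hb, Fintype.mem_piFinset.2 hb⟩, Finset.mem_product.2 ⟨hh, hh⟩⟩, rfl⟩

theorem EW_nonneg {G : Type} [CommGroup G] [DecidableEq G] {k : ℕ} (B : Fin k → Finset ℕ)
    (f : Fin k → ℕ → G) (H : Finset G) : 0 ≤ EW B f H := Nat.cast_nonneg _

theorem pf_HGW : T_HGW := by
  classical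
  intro G _ _ _ k B f n H hH hn hsum
  obtain ⟨N, hN⟩ : ∃ N : ℝ, N = (Fintype.card G : ℝ) := ⟨_, rfl⟩
  have hN0 : 0 < N := by
    rw [hN]
    exact_mod_cast Fintype.card_pos
  obtain ⟨h, hh⟩ : ∃ h : ℝ, h = (H.card : ℝ) := ⟨_, rfl⟩
  have hh0 : 0 < h := by
    rw [hh]
    exact_mod_cast Finset.card_pos.2 hH
  obtain ⟨E, hE⟩ : ∃ E : Fin k → ℝ, E = fun j => EW (fun _ : Fin (n j) => B j) (fun _ => f j) H :=
    ⟨_, rfl⟩
  have hE' : ∀ j, EW (fun _ : Fin (n j) => B j) (fun _ => f j) H = E j := fun j => by rw [hE]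
  simp only [hE', ← hh]
  have hEn : ∀ j, 0 ≤ E j := fun j => by rw [← hE' j]; exact EW_nonneg _ _ _
  have hR0 : 0 ≤ h ^ (1 - ∑ j, (1 : ℝ) / n j) * ∏ j, E j ^ ((1 : ℝ) / n j) :=
    mul_nonneg (Real.rpow_nonneg hh0.le _)
      (Finset.prod_nonneg fun j _ => Real.rpow_nonneg (hEn j) _)
  by_cases hne : ∀ j, (B j).Nonempty
  swap
  · push Not at hne
    obtain ⟨j, hj⟩ := hne
    have h0 : Fintype.piFinset B = ∅ := by
      rw [Finset.eq_empty_iff_forall_notMem]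
      intro s hs
      have := Fintype.mem_piFinset.1 hs j
      rw [hj] at this
      exact absurd this (Finset.notMem_empty _)
    have h1 : EW B f H = 0 := by
      unfold EW
      rw [h0]
      simp
    rw [h1]
    exact hR0
  have hE0 : ∀ j, 0 < E j := fun j => by
    rw [← hE' j]; exact EW_pos _ (fun _ => hne j) _ _ hH
  obtain ⟨A, hA⟩ : ∃ A : Fin k → ℝ, A = fun j => E j / h := ⟨_, rfl⟩
  have hA0 : ∀ j, 0 < A j := fun j => by rw [hA]; exact div_pos (hE0 j) hh0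
  obtain ⟨X, hX⟩ : ∃ X : Fin k → AddChar (Additive G) ℂ → ℝ,
    X = fun j ψ => ‖Sj (B j) (f j) ψ‖ ^ 2 := ⟨_, rfl⟩
  have hX' : ∀ j ψ, ‖Sj (B j) (f j) ψ‖ ^ 2 = X j ψ := fun j ψ => by rw [hX]
  have hX0 : ∀ j ψ, 0 ≤ X j ψ := fun j ψ => by rw [hX]; positivity
  obtain ⟨w, hw⟩ : ∃ w : AddChar (Additive G) ℂ → ℝ, w = fun ψ => ‖Hs H ψ‖ ^ 2 := ⟨_, rfl⟩
  have hw' : ∀ ψ, ‖Hs H ψ‖ ^ 2 = w ψ := fun ψ => by rw [hw]
  have hw0 : ∀ ψ, 0 ≤ w ψ := fun ψ => by rw [hw]; positivity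
  have hn0 : ∀ j, (0 : ℝ) < n j := fun j => by exact_mod_cast hn j
  obtain ⟨P, hP⟩ : ∃ P : ℝ, P = ∏ j, A j ^ ((1 : ℝ) / n j) := ⟨_, rfl⟩
  have hP0 : 0 ≤ P := by
    rw [hP]; exact Finset.prod_nonneg fun j _ => Real.rpow_nonneg (hA0 j).le _
  -- pointwise bound
  have hpt : ∀ ψ, ∏ j, X j ψ ≤ P *
      (∑ j, (1 : ℝ) / n j * (X j ψ ^ n j / A j) + (1 - ∑ j, (1 : ℝ) / n j)) := by
    intro ψ
    have h1 : ∏ j, X j ψ = P * ∏ j, (X j ψ ^ n j / A j) ^ ((1 : ℝ) / n j) := by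
      rw [hP, ← Finset.prod_mul_distrib]
      refine Finset.prod_congr rfl fun j _ => ?_
      have e0 : A j ^ ((1 : ℝ) / n j) ≠ 0 := (Real.rpow_pos_of_pos (hA0 j) _).ne'
      rw [Real.div_rpow (pow_nonneg (hX0 j ψ) _) (hA0 j).le]
      have e2 : (X j ψ ^ n j) ^ ((1 : ℝ) / n j) = X j ψ := by
        rw [← Real.rpow_natCast_mul (hX0 j ψ), mul_one_div_cancel (hn0 j).ne', Real.rpow_one]
      rw [e2, mul_div_cancel₀ _ e0]
    rw [h1]
    refine mul_le_mul_of_nonneg_left ?_ hP0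
    exact Pool.Agent.H31.AE.amgm_le Finset.univ (fun j => (1 : ℝ) / n j)
      (fun j => X j ψ ^ n j / A j) (fun j _ => (one_div_pos.2 (hn0 j)).le) hsum
      (fun j _ => div_nonneg (pow_nonneg (hX0 _ _) _) (hA0 j).le)
  have hs0 : ∀ j, ∑ ψ, w ψ * (X j ψ ^ n j / A j) = N * h := by
    intro j
    have h1 := sum_wpow (B j) (f j) (n j) H
    simp only [hX', hw', hE', ← hN] at h1
    have h2 : ∀ ψ, w ψ * (X j ψ ^ n j / A j) = (w ψ * X j ψ ^ n j) / A j := fun ψ =>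
      (mul_div_assoc _ _ _).symm
    rw [Finset.sum_congr rfl fun ψ _ => h2 ψ, ← Finset.sum_div, h1, hA]
    have := (hE0 j).ne'
    field_simp
  have hsw : ∑ ψ, w ψ = N * h := by
    have h1 := sum_w H
    simp only [hw', ← hN, ← hh] at h1
    exact h1
  have hsumψ : ∑ ψ, w ψ * ∏ j, X j ψ ≤ P * (N * h) := by
    calc ∑ ψ, w ψ * ∏ j, X j ψ ≤ ∑ ψ, w ψ * (P *
          (∑ j, (1 : ℝ) / n j * (X j ψ ^ n j / A j) + (1 - ∑ j, (1 : ℝ) / n j))) :=
          Finset.sum_le_sum fun ψ _ => mul_le_mul_of_nonneg_left (hpt ψ) (hw0 ψ)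
      _ = P * (∑ j, (1 : ℝ) / n j * ∑ ψ, w ψ * (X j ψ ^ n j / A j) +
          (1 - ∑ j, (1 : ℝ) / n j) * ∑ ψ, w ψ) := by
          have e1 : ∀ ψ, w ψ * (P * (∑ j, (1 : ℝ) / n j * (X j ψ ^ n j / A j) +
              (1 - ∑ j, (1 : ℝ) / n j))) = P * (∑ j, (1 : ℝ) / n j * (w ψ * (X j ψ ^ n j / A j)) +
              (1 - ∑ j, (1 : ℝ) / n j) * w ψ) := by
            intro ψ
            have e2 : ∑ j, (1 : ℝ) / n j * (w ψ * (X j ψ ^ n j / A j)) =
                w ψ * ∑ j, (1 : ℝ) / n j * (X j ψ ^ n j / A j) := by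
              rw [Finset.mul_sum]
              exact Finset.sum_congr rfl fun j _ => by ring
            rw [e2]
            ring
          rw [Finset.sum_congr rfl fun ψ _ => e1 ψ, ← Finset.mul_sum, Finset.sum_add_distrib,
            Finset.sum_comm, ← Finset.mul_sum]
          congr 2
          exact Finset.sum_congr rfl fun j _ => (Finset.mul_sum _ _ _).symm
      _ = P * (N * h) := by
          rw [Finset.sum_congr rfl fun j _ => by rw [hs0 j], hsw, ← Finset.sum_mul]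
          ring
  have hfin : N * EW B f H ≤ N * (P * h) := by
    have h1 := sum_wprod B f H
    simp only [hX', hw', ← hN] at h1
    rw [← h1]
    refine hsumψ.trans (le_of_eq (by ring))
  have hfin' : EW B f H ≤ P * h := le_of_mul_le_mul_left hfin hN0
  refine hfin'.trans (le_of_eq ?_)
  have e1 : P = (∏ j, E j ^ ((1 : ℝ) / n j)) / h ^ (∑ j, (1 : ℝ) / n j) := by
    rw [hP, hA, Real.rpow_sum_of_pos hh0, ← Finset.prod_div_distrib]
    exact Finset.prod_congr rfl fun j _ => Real.div_rpow (hEn j) hh0.le _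
  rw [e1, Real.rpow_sub hh0, Real.rpow_one]
  ring

end Pool.Agent.H49.AG
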